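import Pool.Agent.H90.EH.Targets

/-! KIG: the main inequality for an automorphism of prime order (MP_e3a811_co). -/

set_option autoImplicit false
set_option linter.unusedSectionVars false

namespace Pool.Agent.H1.EH

open Finset
open scoped Classical
open Pool.Agent.H90.EH

theorem pf_KIG (h1 : T_SEL) (h2 : T_FIX) (h3 : T_HSC) (h4 : T_KI) (h5 : T_RKO) : T_KIG := by
  intro V _ _ Λ ht ψ A A₀ p hp hLF hA0 hΛ hht hper hcone hfix
  have hp1 : 1 ≤ p := hp.one_lt.le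
  have hp2 : 2 ≤ p := hp.two_le
  -- powers
  have powS : ∀ (i : ℕ) (x : V), (ψ ^ (i + 1)) x = ψ ((ψ ^ i) x) := by
    intro i x
    rw [pow_succ']
    rfl
  have powS' : ∀ (i : ℕ) (x : V), (ψ ^ (i + 1)) x = (ψ ^ i) (ψ x) := by
    intro i x
    rw [pow_succ]
    rfl
  have pow0 : ∀ x : V, (ψ ^ 0) x = x := by
    intro x
    rw [pow_zero]
    rfl
  have powΛ : ∀ (i : ℕ) (x : V), x ∈ Λ → (ψ ^ i) x ∈ Λ := by
    intro i
    induction i with
    | zero => intro x hx; rw [pow0]; exact hx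
    | succ i ih => intro x hx; rw [powS]; exact hΛ _ (ih x hx)
  have powht : ∀ (i : ℕ) (x : V), ht ((ψ ^ i) x) = ht x := by
    intro i
    induction i with
    | zero => intro x; rw [pow0]
    | succ i ih => intro x; rw [powS, hht, ih]
  have powcone : ∀ (i : ℕ) (x : V), x ∈ Cone A → (ψ ^ i) x ∈ Cone A := by
    intro i
    induction i with
    | zero => intro x hx; rw [pow0]; exact hx
    | succ i ih => intro x hx; rw [powS]; exact hcone _ (ih x hx)
  have powfix : ∀ (i : ℕ) (x : V), ψ x = x → (ψ ^ i) x = x := by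
    intro i
    induction i with
    | zero => intro x _; rw [pow0]
    | succ i ih => intro x hx; rw [powS, ih x hx, hx]
  have powcomm : ∀ (i j : ℕ) (x : V), (ψ ^ i) ((ψ ^ j) x) = (ψ ^ j) ((ψ ^ i) x) := by
    intro i j x
    have e1 : (ψ ^ i) ((ψ ^ j) x) = (ψ ^ i * ψ ^ j) x := rfl
    have e2 : (ψ ^ j) ((ψ ^ i) x) = (ψ ^ j * ψ ^ i) x := rfl
    rw [e1, e2, ← pow_add, ← pow_add, add_comm]
  set A2 : Finset V := A₀ ∪ (range p).biUnion (fun i => A.image (fun a => (ψ ^ i) a)) with hA2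
  have memA2 : ∀ b, b ∈ A2 ↔ b ∈ A₀ ∨ ∃ i < p, ∃ a ∈ A, (ψ ^ i) a = b := by
    intro b
    rw [hA2, mem_union, mem_biUnion]
    constructor
    · rintro (h | ⟨i, hi, h⟩)
      · exact Or.inl h
      · obtain ⟨a, ha, hb⟩ := mem_image.1 h
        exact Or.inr ⟨i, mem_range.1 hi, a, ha, hb⟩
    · rintro (h | ⟨i, hi, a, ha, hb⟩)
      · exact Or.inl h
      · exact Or.inr ⟨i, mem_range.2 hi, mem_image.2 ⟨a, ha, hb⟩⟩
  have sub0 : A₀ ⊆ A2 := fun b hb => (memA2 b).2 (Or.inl hb)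
  have subA : A ⊆ A2 := fun b hb => (memA2 b).2 (Or.inr ⟨0, hp1, b, hb, pow0 b⟩)
  have A2cone : ∀ b ∈ A2, b ∈ Cone A := by
    intro b hb
    rcases (memA2 b).1 hb with h | ⟨i, _, a, ha, rfl⟩
    · exact ((hfix b).1 (cone_mem h)).1
    · exact powcone i a (cone_mem ha)
  have hCC : Cone A2 = Cone A :=
    Set.Subset.antisymm (cone_mono A2cone) (cone_mono fun a ha => cone_mem (subA ha))
  have hLF2 : LF Λ ht A2 := by
    refine ⟨?_, ?_⟩
    · intro b hb
      rcases (memA2 b).1 hb with h | ⟨i, _, a, ha, rfl⟩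
      · exact hA0 b h
      · exact ⟨powΛ i a (hLF.1 a ha).1, by rw [powht]; exact (hLF.1 a ha).2⟩
    · intro m
      rw [hCC]
      exact hLF.2 m
  have A2per : ∀ b ∈ A2, (ψ ^ p) b = b := by
    intro b hb
    rcases (memA2 b).1 hb with h | ⟨i, _, a, ha, rfl⟩
    · exact powfix p b ((hfix b).1 (cone_mem h)).2
    · rw [powcomm, hper a ha]
  have A2st : ∀ b ∈ A2, ψ b ∈ A2 := by
    intro b hb
    rcases (memA2 b).1 hb with h | ⟨i, hi, a, ha, rfl⟩
    · rw [((hfix b).1 (cone_mem h)).2]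
      exact hb
    · rw [← powS]
      rcases Nat.lt_or_ge (i + 1) p with hlt | hge
      · exact (memA2 _).2 (Or.inr ⟨i + 1, hlt, a, ha, rfl⟩)
      · have : i + 1 = p := by omega
        rw [this, hper a ha]
        exact subA ha
  have hfix2 : ∀ x, x ∈ Cone A₀ ↔ x ∈ Cone A2 ∧ ψ x = x := by
    intro x
    rw [hCC]
    exact hfix x
  have hcone2 : ∀ x ∈ Cone A2, ψ x ∈ Cone A2 := by
    intro x hx
    rw [hCC] at hx ⊢
    exact hcone x hx
  obtain ⟨k, v, hO⟩ := h1 V ψ A2 A₀ p hp sub0 A2st A2per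
    (h2 V ψ A2 A₀ p hp1 hcone2 A2per hfix2) (fun x hx hxe => (hfix2 x).2 ⟨hx, hxe⟩)
  have e1 := h3 V Λ ht A2 A hCC
  have e2 := h4 V Λ ht A2 A₀ k p v hp2 hLF2 hO
  have e3 := h5 V A2 A₀ k p v hp2 hO
  refine ⟨k, ?_, ?_⟩
  · rw [← e1.1]
    exact e3
  · rw [← e1.2]
    exact e2

end Pool.Agent.H1.EH
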